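import Mathlib
import Pool.Agent.Helper579.IidDomain

set_option autoImplicit false

namespace Pool.Agent.H604R3.Shape

open MeasureTheory Set Filter
open Pool.Agent.Helper579.Iid
open scoped ENNReal Topology

/-- a bounded open convex set that contains a ball is admissible -/
lemma admissible_of_convex {d : ℕ} (hd : 1 ≤ d) {D : Set (Fin d → ℝ)} (hopen : IsOpen D)
    (hconv : Convex ℝ D) (c : Fin d → ℝ) {ρ R : ℝ} (hρ : 0 < ρ) (hρR : ρ ≤ R)
    (hball : ∀ z : Fin d → ℝ, ∑ i, (z i - c i) ^ 2 ≤ ρ ^ 2 → z ∈ D)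
    (hbdd : ∀ x ∈ D, ∑ i, (x i - c i) ^ 2 ≤ R ^ 2) : Admissible D where
  pos := hd
  isOpen := hopen
  nonempty := ⟨c, hball c (by simp; positivity)⟩
  bounded := by
    rw [Metric.isBounded_iff_subset_closedBall c]
    refine ⟨R, fun x hx => ?_⟩
    rw [Metric.mem_closedBall, dist_pi_le_iff (by linarith)]
    intro i
    rw [Real.dist_eq]
    apply abs_le_of_sq_le_sq _ (by linarith)
    refine le_trans ?_ (hbdd x hx)
    exact Finset.single_le_sum (f := fun i => (x i - c i) ^ 2) (fun i _ => sq_nonneg _)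
      (Finset.mem_univ i)
  cone := by
    have hR : 0 < R := by linarith
    set κ : ℝ := 1 - ρ ^ 2 / (2 * R ^ 2) with hκ
    have hq : ρ ^ 2 / (2 * R ^ 2) ≤ 1 / 2 := by
      rw [div_le_iff₀ (by positivity)]
      nlinarith
    have hq0 : 0 < ρ ^ 2 / (2 * R ^ 2) := by positivity
    have hcos : Real.cos (Real.arccos κ) = κ := Real.cos_arccos (by linarith) (by linarith)
    refine ⟨Real.arccos κ, ρ / 2, ?_, ?_, by positivity, ?_⟩
    · rw [Real.arccos_pos]; linarith
    · rw [Real.arccos_lt_pi_div_two]; linarith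
    · intro x hx
      set s : ℝ := ∑ i, (c i - x i) ^ 2 with hs
      have hs0 : 0 ≤ s := Finset.sum_nonneg fun i _ => sq_nonneg _
      have hsR : s ≤ R ^ 2 := by
        have := hbdd x hx
        have e : s = ∑ i, (x i - c i) ^ 2 := by
          rw [hs]; exact Finset.sum_congr rfl fun i _ => by ring
        rw [e]; exact this
      set e0 : ℝ := Real.sqrt s with he0
      have he0sq : e0 ^ 2 = s := Real.sq_sqrt hs0
      by_cases hfar : ρ / 2 ≤ e0
      · have he0pos : 0 < e0 := by linarith
        refine ⟨fun i => (c i - x i) / e0, ?_, ?_⟩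
        · have : ∑ i, ((c i - x i) / e0) ^ 2 = s / e0 ^ 2 := by
            rw [hs, Finset.sum_div]
            exact Finset.sum_congr rfl fun i _ => by rw [div_pow]
          rw [this, he0sq, div_self]
          rw [← he0sq]; positivity
        · intro y hy hcy t ht
          rw [hcos] at hcy
          obtain ⟨ht0, ht1⟩ := ht
          set w : Fin d → ℝ := fun i => c i + (e0 * y i - (c i - x i)) with hw
          have hwD : w ∈ D := by
            apply hball
            have h1 : ∑ i, (w i - c i) ^ 2 = e0 ^ 2 * ∑ i, y i ^ 2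
                - 2 * e0 * (e0 * ∑ i, y i * ((c i - x i) / e0)) + s := by
              rw [hs, Finset.mul_sum, Finset.mul_sum, Finset.mul_sum, ← Finset.sum_sub_distrib,
                ← Finset.sum_add_distrib]
              refine Finset.sum_congr rfl fun i _ => ?_
              simp only [hw]
              field_simp
              ring
            rw [h1, hy, he0sq]
            have h2 : κ ≤ ∑ i, y i * ((c i - x i) / e0) := hcy
            have h3 : 2 * e0 * (e0 * ∑ i, y i * ((c i - x i) / e0))
                = 2 * s * ∑ i, y i * ((c i - x i) / e0) := by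
              rw [← he0sq]; ring
            rw [h3]
            have h4 : 2 * s * κ ≤ 2 * s * ∑ i, y i * ((c i - x i) / e0) := by
              apply mul_le_mul_of_nonneg_left h2 (by positivity)
            have h5 : 2 * s * (1 - κ) ≤ ρ ^ 2 := by
              rw [hκ]
              have : 2 * s * (1 - (1 - ρ ^ 2 / (2 * R ^ 2))) = s * (ρ ^ 2 / R ^ 2) := by
                field_simp; ring
              rw [this]
              calc s * (ρ ^ 2 / R ^ 2) ≤ R ^ 2 * (ρ ^ 2 / R ^ 2) := by gcongr
                _ = ρ ^ 2 := by field_simp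
            linarith
          have hlam : t / e0 ≤ 1 := by
            rw [div_le_one he0pos]; linarith
          have hlam0 : 0 ≤ t / e0 := by positivity
          have hcomb := hconv hx hwD (a := 1 - t / e0) (b := t / e0) (by linarith) hlam0 (by ring)
          have heq : x + t • y = (1 - t / e0) • x + (t / e0) • w := by
            funext i
            simp only [Pi.add_apply, Pi.smul_apply, smul_eq_mul, hw]
            field_simp
            ring
          rw [heq]
          exact hcomb
      · push Not at hfar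
        refine ⟨Pi.single ⟨0, hd⟩ 1, ?_, ?_⟩
        · simp [Pi.single_apply]
        · intro y hy _ t ht
          obtain ⟨ht0, ht1⟩ := ht
          apply hball
          have h1 : ∑ i, ((x + t • y) i - c i) ^ 2 ≤ 2 * s + 2 * t ^ 2 * ∑ i, y i ^ 2 := by
            rw [hs, Finset.mul_sum, Finset.mul_sum, ← Finset.sum_add_distrib]
            refine Finset.sum_le_sum fun i _ => ?_
            simp only [Pi.add_apply, Pi.smul_apply, smul_eq_mul]
            nlinarith [sq_nonneg ((x i - c i) - t * y i)]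
          rw [hy] at h1
          refine h1.trans ?_
          have h2 : s ≤ (ρ / 2) ^ 2 := by
            rw [← he0sq]
            exact pow_le_pow_left₀ (Real.sqrt_nonneg _) hfar.le 2
          have h3 : t ^ 2 ≤ (ρ / 2) ^ 2 := pow_le_pow_left₀ ht0 ht1 2
          nlinarith

/-- the open triangle with the vertices `(0,0)`, `(e,0)`, `(e, m e)` -/
def Tri (m e : ℝ) : Set (Fin 2 → ℝ) := {x | x 0 < e ∧ 0 < x 1 ∧ x 1 < m * x 0}

lemma isOpen_Tri (m e : ℝ) : IsOpen (Tri m e) := by
  have h0 : Continuous fun x : Fin 2 → ℝ => x 0 := continuous_apply 0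
  have h1 : Continuous fun x : Fin 2 → ℝ => x 1 := continuous_apply 1
  exact (isOpen_lt h0 continuous_const).inter
    ((isOpen_lt continuous_const h1).inter (isOpen_lt h1 (continuous_const.mul h0)))

lemma Tri_pos {m e : ℝ} (hm : 0 < m) {x : Fin 2 → ℝ} (hx : x ∈ Tri m e) : 0 < x 0 := by
  obtain ⟨_, h1, h2⟩ := hx
  by_contra hcon
  push Not at hcon
  nlinarith

lemma convex_Tri (m e : ℝ) : Convex ℝ (Tri m e) := by
  intro x hx y hy a b ha hb hab
  obtain ⟨x1, x2, x3⟩ := hx
  obtain ⟨y1, y2, y3⟩ := hy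
  refine ⟨?_, ?_, ?_⟩
  · simp only [Pi.add_apply, Pi.smul_apply, smul_eq_mul]
    rcases eq_or_lt_of_le ha with h | h
    · subst h
      have : b = 1 := by linarith
      subst this; linarith
    · have h4 := mul_lt_mul_of_pos_left x1 h
      have h5 := mul_le_mul_of_nonneg_left y1.le hb
      have h6 : a * e + b * e = e := by rw [← add_mul, hab, one_mul]
      linarith
  · simp only [Pi.add_apply, Pi.smul_apply, smul_eq_mul]
    rcases eq_or_lt_of_le ha with h | h
    · subst h
      have : b = 1 := by linarith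
      subst this; linarith
    · have := mul_pos h x2
      have := mul_nonneg hb y2.le
      linarith
  · simp only [Pi.add_apply, Pi.smul_apply, smul_eq_mul]
    rcases eq_or_lt_of_le ha with h | h
    · subst h
      have : b = 1 := by linarith
      subst this; linarith
    · have h4 := mul_lt_mul_of_pos_left x3 h
      have h5 := mul_le_mul_of_nonneg_left y3.le hb
      linarith

lemma admissible_Tri {m e : ℝ} (hm : 0 < m) (he : 0 < e) : Admissible (Tri m e) := by
  set ρ : ℝ := min (e / 6) (m * e / (6 * (1 + m))) with hρ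
  have hρ0 : 0 < ρ := by rw [hρ]; positivity
  have h1 : ρ ≤ e / 6 := min_le_left _ _
  have h2 : ρ * (1 + m) ≤ m * e / 6 := by
    have : ρ ≤ m * e / (6 * (1 + m)) := min_le_right _ _
    rw [le_div_iff₀ (by positivity)] at this
    linarith
  have hme : 0 < m * e := by positivity
  refine admissible_of_convex (by norm_num) (isOpen_Tri m e) (convex_Tri m e)
    ![2 * e / 3, m * e / 3] hρ0 (R := e + m * e) (by nlinarith) ?_ ?_
  · intro z hz
    simp only [Fin.sum_univ_two, Matrix.cons_val_zero, Matrix.cons_val_one] at hz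
    have a0 : |z 0 - 2 * e / 3| ≤ ρ := abs_le_of_sq_le_sq (by nlinarith [sq_nonneg (z 1 - m * e / 3)]) hρ0.le
    have a1 : |z 1 - m * e / 3| ≤ ρ := abs_le_of_sq_le_sq (by nlinarith [sq_nonneg (z 0 - 2 * e / 3)]) hρ0.le
    rw [abs_le] at a0 a1
    refine ⟨by linarith [a0.2], ?_, ?_⟩
    · nlinarith [a1.1]
    · nlinarith [a1.2, a0.1]
  · intro x hx
    have hx0 := Tri_pos hm hx
    obtain ⟨x1, x2, x3⟩ := hx
    simp only [Fin.sum_univ_two, Matrix.cons_val_zero, Matrix.cons_val_one]
    have b0 : (x 0 - 2 * e / 3) ^ 2 ≤ e ^ 2 := by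
      apply sq_le_sq'
      · linarith
      · linarith
    have b1 : (x 1 - m * e / 3) ^ 2 ≤ (m * e) ^ 2 := by
      have : x 1 < m * e := by nlinarith
      apply sq_le_sq'
      · linarith
      · linarith
    nlinarith

lemma volume_Tri {m e : ℝ} (hm : 0 < m) (he : 0 < e) :
    volume (Tri m e) = ENNReal.ofReal (m * e ^ 2 / 2) := by
  have h1 := (volume_preserving_finTwoArrow ℝ)
  have h2 : Tri m e = MeasurableEquiv.finTwoArrow ⁻¹'
      (regionBetween (fun _ => (0 : ℝ)) (fun a => m * a) (Ioo 0 e)) := by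
    ext x
    simp only [Tri, regionBetween, mem_preimage, mem_ofPred_eq, mem_Ioo]
    constructor
    · rintro ⟨a, b, c⟩
      have : 0 < x 0 := Tri_pos hm ⟨a, b, c⟩
      exact ⟨⟨this, a⟩, b, c⟩
    · rintro ⟨⟨_, a⟩, b, c⟩
      exact ⟨a, b, c⟩
  rw [h2, h1.measure_preimage_emb (MeasurableEquiv.measurableEmbedding _)]
  have h3 : (volume : Measure (ℝ × ℝ)) = (volume : Measure ℝ).prod volume := rfl
  rw [h3, volume_regionBetween_eq_integral (μ := (volume : Measure ℝ))]
  · congr 1
    rw [← integral_Ioc_eq_integral_Ioo, ← intervalIntegral.integral_of_le he.le]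
    simp only [Pi.sub_apply, sub_zero]
    rw [intervalIntegral.integral_const_mul, integral_id]
    ring
  · exact integrableOn_const (by simp)
  · exact ((continuous_const.mul continuous_id).integrableOn_Icc (a := 0) (b := e)).mono_set
      Ioo_subset_Icc_self
  · exact measurableSet_Ioo
  · intro x hx
    exact (mul_pos hm hx.1).le

lemma admissible_USq : Admissible USq := by
  refine admissible_of_convex (by norm_num) isOpen_USq ?_ ![1 / 2, 1 / 2] (ρ := 1 / 4) (R := 2)
    (by norm_num) (by norm_num) ?_ ?_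
  · rw [USq_eq]
    exact convex_pi fun i _ => convex_Ioo _ _
  · intro z hz
    simp only [Fin.sum_univ_two, Matrix.cons_val_zero, Matrix.cons_val_one] at hz
    have a0 : |z 0 - 1 / 2| ≤ 1 / 4 := abs_le_of_sq_le_sq (by nlinarith [sq_nonneg (z 1 - 1 / 2)]) (by norm_num)
    have a1 : |z 1 - 1 / 2| ≤ 1 / 4 := abs_le_of_sq_le_sq (by nlinarith [sq_nonneg (z 0 - 1 / 2)]) (by norm_num)
    rw [abs_le] at a0 a1
    exact ⟨⟨by linarith, by linarith⟩, ⟨by linarith, by linarith⟩⟩
  · intro x hx
    simp only [Fin.sum_univ_two, Matrix.cons_val_zero, Matrix.cons_val_one]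
    obtain ⟨⟨a, b⟩, ⟨c, d⟩⟩ := hx
    nlinarith

/-- the shear `(x, y) ↦ (x + s y, y)` -/
def shear (s : ℝ) (x : Fin 2 → ℝ) : Fin 2 → ℝ := ![x 0 + s * x 1, x 1]

/-- the sheared unit square: the open parallelogram with the vertices `(0,0)`, `(1,0)`,
`(s + 1, 1)`, `(s, 1)` -/
def Sq (s : ℝ) : Set (Fin 2 → ℝ) :=
  {x | (0 < x 1 ∧ x 1 < 1) ∧ (s * x 1 < x 0 ∧ x 0 < s * x 1 + 1)}

lemma shear_continuous (s : ℝ) : Continuous (shear s) := by
  unfold shear
  have h0 : Continuous fun x : Fin 2 → ℝ => x 0 := continuous_apply 0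
  have h1 : Continuous fun x : Fin 2 → ℝ => x 1 := continuous_apply 1
  apply continuous_pi
  intro i
  fin_cases i
  · exact h0.add (continuous_const.mul h1)
  · exact h1

lemma shear_shear (s t : ℝ) (x : Fin 2 → ℝ) : shear s (shear t x) = shear (s + t) x := by
  unfold shear
  ext i
  fin_cases i
  · simp; ring
  · simp

lemma shear_zero (x : Fin 2 → ℝ) : shear 0 x = x := by
  unfold shear
  ext i
  fin_cases i <;> simp

/-- the shear as a homeomorphism -/
noncomputable def shearHomeo (s : ℝ) : (Fin 2 → ℝ) ≃ₜ (Fin 2 → ℝ) where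
  toFun := shear s
  invFun := shear (-s)
  left_inv := fun x => by rw [shear_shear, neg_add_cancel, shear_zero]
  right_inv := fun x => by rw [shear_shear, add_neg_cancel, shear_zero]
  continuous_toFun := shear_continuous s
  continuous_invFun := shear_continuous (-s)

lemma shear_preserving (s : ℝ) :
    MeasurePreserving (shear s) (volume : Measure (Fin 2 → ℝ)) volume := by
  have h := Real.volume_preserving_transvectionStruct
    (⟨0, 1, by decide, s⟩ : Matrix.TransvectionStruct (Fin 2) ℝ)
  have e : (fun x => shear s x) = fun x => (Matrix.toLin' (⟨0, 1, by decide, s⟩ :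
      Matrix.TransvectionStruct (Fin 2) ℝ).toMatrix) x := by
    funext x
    ext i
    fin_cases i
    · simp [shear, Matrix.TransvectionStruct.toMatrix, Matrix.transvection, Matrix.mulVec,
        Matrix.single, dotProduct]
    · simp [shear, Matrix.TransvectionStruct.toMatrix, Matrix.transvection, Matrix.mulVec,
        Matrix.single, dotProduct]
  have e' : shear s = fun x => (Matrix.toLin' (⟨0, 1, by decide, s⟩ :
      Matrix.TransvectionStruct (Fin 2) ℝ).toMatrix) x := e
  rw [e']
  exact h

lemma shear_emb (s : ℝ) : MeasurableEmbedding (shear s) :=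
  (shearHomeo s).measurableEmbedding

lemma shear_preimage (s : ℝ) : shear s ⁻¹' Sq s = USq := by
  ext x
  simp only [Sq, USq, shear, mem_preimage, mem_ofPred_eq, Matrix.cons_val_zero,
    Matrix.cons_val_one]
  constructor
  · rintro ⟨h1, h2, h3⟩
    exact ⟨⟨by linarith, by linarith⟩, h1⟩
  · rintro ⟨⟨h2, h3⟩, h1⟩
    exact ⟨h1, by linarith, by linarith⟩

lemma Sq_zero : Sq 0 = USq := by
  have h := shear_preimage 0
  have e : shear 0 = id := by funext x; exact shear_zero x
  rw [e] at h
  exact h

lemma volume_Sq (s : ℝ) : volume (Sq s) = 1 := by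
  rw [← (shear_preserving s).measure_preimage_emb (shear_emb s), shear_preimage, volume_USq]

lemma isOpen_Sq (s : ℝ) : IsOpen (Sq s) := by
  have h0 : Continuous fun x : Fin 2 → ℝ => x 0 := continuous_apply 0
  have h1 : Continuous fun x : Fin 2 → ℝ => x 1 := continuous_apply 1
  exact ((isOpen_lt continuous_const h1).inter (isOpen_lt h1 continuous_const)).inter
    ((isOpen_lt (continuous_const.mul h1) h0).inter
      (isOpen_lt h0 ((continuous_const.mul h1).add continuous_const)))

lemma convex_Sq (s : ℝ) : Convex ℝ (Sq s) := by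
  intro x hx y hy a b ha hb hab
  obtain ⟨⟨x1, x2⟩, x3, x4⟩ := hx
  obtain ⟨⟨y1, y2⟩, y3, y4⟩ := hy
  have key : ∀ p q p' q' : ℝ, p < q → p' < q' → a * p + b * p' < a * q + b * q' := by
    intro p q p' q' h1 h2
    rcases eq_or_lt_of_le ha with h | h
    · subst h
      have : b = 1 := by linarith
      subst this; linarith
    · have h4 := mul_lt_mul_of_pos_left h1 h
      have h5 := mul_le_mul_of_nonneg_left h2.le hb
      linarith
  have k1 := key _ _ _ _ x1 y1
  have k2 := key _ _ _ _ x2 y2
  have k3 := key _ _ _ _ x3 y3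
  have k4 := key _ _ _ _ x4 y4
  refine ⟨⟨?_, ?_⟩, ?_, ?_⟩ <;>
    simp only [Pi.add_apply, Pi.smul_apply, smul_eq_mul]
  · linarith
  · linarith
  · linarith
  · linarith

lemma admissible_Sq {s : ℝ} (hs : 0 ≤ s) : Admissible (Sq s) := by
  set ρ : ℝ := 1 / (4 * (1 + s)) with hρ
  have hρ0 : 0 < ρ := by rw [hρ]; positivity
  have h1 : ρ * (1 + s) = 1 / 4 := by rw [hρ]; field_simp
  have h1' : ρ ≤ 1 / 4 := by nlinarith
  refine admissible_of_convex (by norm_num) (isOpen_Sq s) (convex_Sq s)
    ![(s + 1) / 2, 1 / 2] hρ0 (R := s + 2) (by linarith) ?_ ?_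
  · intro z hz
    simp only [Fin.sum_univ_two, Matrix.cons_val_zero, Matrix.cons_val_one] at hz
    have a0 : |z 0 - (s + 1) / 2| ≤ ρ := abs_le_of_sq_le_sq (by nlinarith [sq_nonneg (z 1 - 1 / 2)]) hρ0.le
    have a1 : |z 1 - 1 / 2| ≤ ρ := abs_le_of_sq_le_sq (by nlinarith [sq_nonneg (z 0 - (s + 1) / 2)]) hρ0.le
    rw [abs_le] at a0 a1
    have b1 : s * z 1 ≤ s * (1 / 2 + ρ) := mul_le_mul_of_nonneg_left (by linarith [a1.2]) hs
    have b2 : s * (1 / 2 - ρ) ≤ s * z 1 := mul_le_mul_of_nonneg_left (by linarith [a1.1]) hs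
    refine ⟨⟨by linarith [a1.1], by linarith [a1.2]⟩, ?_, ?_⟩
    · linarith [a0.1]
    · linarith [a0.2]
  · intro x hx
    simp only [Fin.sum_univ_two, Matrix.cons_val_zero, Matrix.cons_val_one]
    obtain ⟨⟨a, b⟩, ⟨c, d⟩⟩ := hx
    have b1 : s * x 1 ≤ s * 1 := mul_le_mul_of_nonneg_left b.le hs
    have b2 : 0 ≤ s * x 1 := mul_nonneg hs a.le
    have c0 : (x 0 - (s + 1) / 2) ^ 2 ≤ ((s + 1) / 2) ^ 2 := by
      apply sq_le_sq'
      · linarith
      · linarith
    have c1 : (x 1 - 1 / 2) ^ 2 ≤ (1 / 2) ^ 2 := by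
      apply sq_le_sq'
      · linarith
      · linarith
    nlinarith

/-- a domain of area 1 with a tip that looks like the tip of the triangle `Tri m e` -/
structure Tip (D : Set (Fin 2 → ℝ)) (m e : ℝ) : Prop where
  hm : 0 < m
  he : 0 < e
  isOpen : IsOpen D
  pos : ∀ x ∈ D, 0 < x 0
  sub : Tri m e ⊆ D
  tip : ∀ x ∈ D, x 0 < e → x ∈ Tri m e
  vol : volume D = 1

lemma tip_Sq {s : ℝ} (hs : 1 ≤ s) : Tip (Sq s) (1 / s) 1 where
  hm := by positivity
  he := one_pos
  isOpen := isOpen_Sq s
  pos := fun x hx => lt_trans (mul_pos (by linarith) hx.1.1) hx.2.1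
  sub := by
    intro x hx
    have hs0 : 0 < s := by linarith
    obtain ⟨x1, x2, x3⟩ := hx
    have h1 : s * x 1 < x 0 := by
      have := mul_lt_mul_of_pos_left x3 hs0
      have e : s * (1 / s * x 0) = x 0 := by field_simp
      rwa [e] at this
    have h2 : 0 < s * x 1 := mul_pos hs0 x2
    refine ⟨⟨x2, ?_⟩, h1, by linarith⟩
    nlinarith
  tip := by
    intro x hx h
    have hs0 : 0 < s := by linarith
    obtain ⟨⟨x1, x2⟩, x3, x4⟩ := hx
    refine ⟨h, x1, ?_⟩
    rw [one_div, ← div_eq_inv_mul, lt_div_iff₀ hs0]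
    linarith
  vol := volume_Sq s

end Pool.Agent.H604R3.Shape
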