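import Mathlib
import Pool.Agent.Helper579.IidCone
import Pool.Agent.H604R3.ShapeGeom

set_option autoImplicit false

namespace Pool.Agent.H604R3.Shape

open MeasureTheory Set Filter
open Pool.Agent.Helper579.Iid
open scoped ENNReal Topology

/-- the derivative of the spike, up to constants -/
noncomputable def Wm (δ : ℝ) (m : ℕ) : (Fin 2 → ℝ) → ℝ :=
  ({x : Fin 2 → ℝ | x 0 ≤ δ}).indicator fun x => (δ - x 0) ^ m

/-- the spike -/
noncomputable def Sp (δ : ℝ) (k : ℕ) : (Fin 2 → ℝ) → ℝ := fun x => (max 0 (δ - x 0)) ^ k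

lemma Sp_continuous (δ : ℝ) (k : ℕ) : Continuous (Sp δ k) := by
  have h0 : Continuous fun x : Fin 2 → ℝ => x 0 := continuous_apply 0
  unfold Sp
  fun_prop

lemma measurableSet_le0 (δ : ℝ) : MeasurableSet {x : Fin 2 → ℝ | x 0 ≤ δ} :=
  measurableSet_le (measurable_pi_apply 0) measurable_const

lemma Wm_succ (δ : ℝ) (m : ℕ) : Wm δ (m + 1) = Sp δ (m + 1) := by
  funext x
  unfold Wm Sp
  by_cases h : x 0 ≤ δ
  · rw [Set.indicator_of_mem (show x ∈ {x : Fin 2 → ℝ | x 0 ≤ δ} from h), max_eq_right (by linarith)]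
  · rw [Set.indicator_of_notMem (show x ∉ {x : Fin 2 → ℝ | x 0 ≤ δ} from h),
      max_eq_left (by linarith)]
    simp

/-- first partial derivative of the spike -/
lemma ibp_zero (δ : ℝ) (m : ℕ) {ψ : (Fin 2 → ℝ) → ℝ} (hψ : ContDiff ℝ (⊤ : ℕ∞) ψ)
    (hc : HasCompactSupport ψ) :
    ∫ x, Sp δ (m + 1) x * pderiv 0 ψ x = (m + 1) * ∫ x, Wm δ m x * ψ x := by
  have hdiff : Differentiable ℝ ψ := hψ.differentiable (by simp)
  have hp := pderiv_continuous hψ 0
  have hpc := pderiv_compact hc 0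
  have h0 : Continuous fun x : Fin 2 → ℝ => x 0 := continuous_apply 0
  have i1 : Integrable (fun x : Fin 2 → ℝ => Sp δ (m + 1) x * pderiv 0 ψ x) :=
    Continuous.integrable_of_hasCompactSupport ((Sp_continuous _ _).mul hp) hpc.mul_left
  have i2' : Integrable (fun x : Fin 2 → ℝ => (δ - x 0) ^ m * ψ x) :=
    Continuous.integrable_of_hasCompactSupport
      (((continuous_const.sub h0).pow m).mul hψ.continuous) hc.mul_left
  have e2 : (fun x => Wm δ m x * ψ x)
      = ({x : Fin 2 → ℝ | x 0 ≤ δ}).indicator fun x => (δ - x 0) ^ m * ψ x := by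
    funext x
    unfold Wm
    by_cases h : x ∈ {x : Fin 2 → ℝ | x 0 ≤ δ}
    · rw [Set.indicator_of_mem h, Set.indicator_of_mem h]
    · rw [Set.indicator_of_notMem h, Set.indicator_of_notMem h, zero_mul]
  have i2 : Integrable (fun x => Wm δ m x * ψ x) := by
    rw [e2]
    exact i2'.indicator (measurableSet_le0 δ)
  rw [integral_two i1, integral_two i2, ← integral_const_mul]
  congr 1
  funext y
  have e3 : ∀ a : ℝ, Sp δ (m + 1) ![a, y] * pderiv 0 ψ ![a, y]
      = (max 0 (δ - a)) ^ (m + 1) * pderiv 0 ψ ![a, y] := fun a => by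
    unfold Sp; simp
  have e4 : ∀ a : ℝ, Wm δ m ![a, y] * ψ ![a, y]
      = (Set.Iic δ).indicator (fun a => (δ - a) ^ m * ψ ![a, y]) a := by
    intro a
    unfold Wm
    by_cases h : a ≤ δ
    · rw [Set.indicator_of_mem (show (![a, y] : Fin 2 → ℝ) ∈ {x : Fin 2 → ℝ | x 0 ≤ δ} from h),
        Set.indicator_of_mem (show a ∈ Set.Iic δ from h)]
      simp
    · rw [Set.indicator_of_notMem
        (show (![a, y] : Fin 2 → ℝ) ∉ {x : Fin 2 → ℝ | x 0 ≤ δ} from h),
        Set.indicator_of_notMem (show a ∉ Set.Iic δ from h), zero_mul]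
  simp only [e3, e4]
  rw [integral_indicator measurableSet_Iic]
  have hcv : Continuous fun a : ℝ => (![a, y] : Fin 2 → ℝ) :=
    continuous_vec2.comp (continuous_id.prodMk continuous_const)
  exact ibp_pos (fun a => ψ ![a, y]) (fun a => pderiv 0 ψ ![a, y])
    (fun a => hasDerivAt_sec0 hdiff a y) (hp.comp hcv) (compact_sec0 hc y)
    (compact_sec0 hpc y) δ m

/-- functions of the first coordinate do not depend on the second one -/
lemma ibp_one (w : ℝ → ℝ) {ψ : (Fin 2 → ℝ) → ℝ} (hψ : ContDiff ℝ (⊤ : ℕ∞) ψ)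
    (hc : HasCompactSupport ψ) (hi : Integrable (fun x : Fin 2 → ℝ => w (x 0) * pderiv 1 ψ x)) :
    ∫ x : Fin 2 → ℝ, w (x 0) * pderiv 1 ψ x = 0 := by
  have hdiff : Differentiable ℝ ψ := hψ.differentiable (by simp)
  have hp := pderiv_continuous hψ 1
  have hpc := pderiv_compact hc 1
  rw [integral_two' hi]
  have hz : ∀ a : ℝ, ∫ y, w ((![a, y] : Fin 2 → ℝ) 0) * pderiv 1 ψ ![a, y] = 0 := by
    intro a
    have e : (fun y => w ((![a, y] : Fin 2 → ℝ) 0) * pderiv 1 ψ ![a, y])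
        = fun y => w a * pderiv 1 ψ ![a, y] := by
      funext y; simp
    rw [e, integral_const_mul]
    have hcv : Continuous fun y : ℝ => (![a, y] : Fin 2 → ℝ) :=
      continuous_vec2.comp (continuous_const.prodMk continuous_id)
    have h1 : ∫ y, pderiv 1 ψ ![a, y] = 0 := by
      apply integral_eq_zero_of_hasDerivAt_of_integrable (f := fun y => ψ ![a, y])
        (fun y => hasDerivAt_sec1 hdiff a y)
      · exact (hp.comp hcv).integrable_of_hasCompactSupport (compact_sec1 hpc a)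
      · exact (hψ.continuous.comp hcv).integrable_of_hasCompactSupport (compact_sec1 hc a)
    rw [h1, mul_zero]
  simp only [hz]
  simp

/-- the integral of a product with a test function can be taken over the whole plane -/
lemma full {D : Set (Fin 2 → ℝ)} (F : (Fin 2 → ℝ) → ℝ) {ψ : (Fin 2 → ℝ) → ℝ}
    (hs : tsupport ψ ⊆ D) : ∫ x in D, F x * ψ x = ∫ x, F x * ψ x :=
  setIntegral_eq_integral_of_forall_compl_eq_zero fun x hx => by
    rw [show ψ x = 0 from by
      by_contra hcon; exact hx (hs (subset_tsupport _ hcon)), mul_zero]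

lemma Wm_measurable (δ : ℝ) (m : ℕ) : Measurable (Wm δ m) :=
  ((measurable_const.sub (measurable_pi_apply 0)).pow_const m).indicator (measurableSet_le0 δ)

lemma Wm_integrable_mul (δ : ℝ) (m : ℕ) {ψ : (Fin 2 → ℝ) → ℝ} (hψ : Continuous ψ)
    (hc : HasCompactSupport ψ) : Integrable (fun x => Wm δ m x * ψ x) := by
  have h0 : Continuous fun x : Fin 2 → ℝ => x 0 := continuous_apply 0
  have i2' : Integrable (fun x : Fin 2 → ℝ => (δ - x 0) ^ m * ψ x) :=
    Continuous.integrable_of_hasCompactSupport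
      (((continuous_const.sub h0).pow m).mul hψ) hc.mul_left
  have e2 : (fun x => Wm δ m x * ψ x)
      = ({x : Fin 2 → ℝ | x 0 ≤ δ}).indicator fun x => (δ - x 0) ^ m * ψ x := by
    funext x
    unfold Wm
    by_cases h : x ∈ {x : Fin 2 → ℝ | x 0 ≤ δ}
    · rw [Set.indicator_of_mem h, Set.indicator_of_mem h]
    · rw [Set.indicator_of_notMem h, Set.indicator_of_notMem h, zero_mul]
  rw [e2]
  exact i2'.indicator (measurableSet_le0 δ)

lemma Wm_one (δ : ℝ) (m : ℕ) {ψ : (Fin 2 → ℝ) → ℝ} (hψ : ContDiff ℝ (⊤ : ℕ∞) ψ)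
    (hc : HasCompactSupport ψ) : ∫ x, Wm δ m x * pderiv 1 ψ x = 0 := by
  have e : ∀ x : Fin 2 → ℝ, Wm δ m x = (Set.Iic δ).indicator (fun a => (δ - a) ^ m) (x 0) := by
    intro x
    unfold Wm
    by_cases h : x 0 ≤ δ
    · rw [Set.indicator_of_mem (show x ∈ {x : Fin 2 → ℝ | x 0 ≤ δ} from h),
        Set.indicator_of_mem (show x 0 ∈ Set.Iic δ from h)]
    · rw [Set.indicator_of_notMem (show x ∉ {x : Fin 2 → ℝ | x 0 ≤ δ} from h),
        Set.indicator_of_notMem (show x 0 ∉ Set.Iic δ from h)]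
  have hi := Wm_integrable_mul δ m (pderiv_continuous hψ 1) (pderiv_compact hc 1)
  simp only [e] at hi ⊢
  exact ibp_one _ hψ hc hi

lemma Sp_one (δ : ℝ) (m : ℕ) {ψ : (Fin 2 → ℝ) → ℝ} (hψ : ContDiff ℝ (⊤ : ℕ∞) ψ)
    (hc : HasCompactSupport ψ) : ∫ x, Sp δ (m + 1) x * pderiv 1 ψ x = 0 := by
  rw [← Wm_succ]
  exact Wm_one δ (m + 1) hψ hc

lemma Wm_loc (D : Set (Fin 2 → ℝ)) (c δ : ℝ) (m : ℕ) :
    LocallyIntegrableOn (fun x => c * Wm δ m x) D := by
  have h0 : Continuous fun x : Fin 2 → ℝ => x 0 := continuous_apply 0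
  have h1 : LocallyIntegrable (fun x : Fin 2 → ℝ => (δ - x 0) ^ m) :=
    ((continuous_const.sub h0).pow m).locallyIntegrable
  have h2 : LocallyIntegrable (Wm δ m) := h1.indicator (measurableSet_le0 δ)
  exact (h2.smul c).locallyIntegrableOn D

lemma rect_volume_ne {m e : ℝ} (hm : 0 < m) (he : 0 < e) :
    volume (Tri m e) ≠ 0 ∧ volume (Tri m e) ≠ ∞ := by
  rw [volume_Tri hm he]
  refine ⟨?_, ENNReal.ofReal_ne_top⟩
  rw [ENNReal.ofReal_ne_zero_iff]
  positivity

/-- the probability to miss the tip -/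
lemma unif_tip {D : Set (Fin 2 → ℝ)} {m e δ : ℝ} (T : Tip D m e) (hδ : 0 < δ) (hδe : δ ≤ e) :
    unif D (D \ Tri m δ) = ENNReal.ofReal (1 - m * δ ^ 2 / 2) := by
  have hm := T.hm
  have hsub : Tri m δ ⊆ D := fun x hx =>
    T.sub ⟨lt_of_lt_of_le hx.1 hδe, hx.2.1, hx.2.2⟩
  have hM := (isOpen_Tri m δ).measurableSet
  have hME := T.isOpen.measurableSet
  unfold unif
  rw [Measure.smul_apply, Measure.restrict_apply (hME.diff hM), smul_eq_mul,
    show (D \ Tri m δ) ∩ D = D \ Tri m δ from inter_eq_left.mpr sdiff_subset,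
    measure_sdiff hsub hM.nullMeasurableSet (rect_volume_ne hm hδ).2, T.vol,
    volume_Tri hm hδ, inv_one, one_mul, ← ENNReal.ofReal_one, ← ENNReal.ofReal_sub _ (by positivity)]

/-- supremum norm of the spike -/
lemma Sp_sup {D : Set (Fin 2 → ℝ)} {m e δ c : ℝ} (T : Tip D m e) (hδ : 0 < δ) (hδe : δ ≤ e)
    (hc : 0 ≤ c) (k : ℕ) :
    ENNReal.ofReal (c * (δ / 2) ^ k)
      ≤ eLpNorm (fun x => c * Sp δ k x) ∞ (volume.restrict D) := by
  have hm := T.hm
  by_contra hcon
  push Not at hcon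
  have hsub : Tri m (δ / 2) ⊆ D := fun x hx => T.sub ⟨by linarith [hx.1], hx.2.1, hx.2.2⟩
  have h1 : ∀ᵐ x ∂(volume.restrict D), ‖c * Sp δ k x‖ₑ < ENNReal.ofReal (c * (δ / 2) ^ k) := by
    have h2 := ae_le_eLpNormEssSup (f := fun x => c * Sp δ k x) (μ := volume.restrict D)
    rw [eLpNorm_exponent_top] at hcon
    filter_upwards [h2] with x hx
    exact lt_of_le_of_lt hx hcon
  rw [ae_restrict_iff' T.isOpen.measurableSet] at h1
  have h2 : Tri m (δ / 2) ⊆ {x | ¬ (x ∈ D → ‖c * Sp δ k x‖ₑ < ENNReal.ofReal (c * (δ / 2) ^ k))} := by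
    intro x hx
    have hxD := hsub hx
    rw [Set.mem_ofPred_eq]
    push Not
    refine ⟨hxD, ?_⟩
    have h3 : 0 ≤ max 0 (δ - x 0) := le_max_left _ _
    have h4 : δ / 2 ≤ max 0 (δ - x 0) := le_trans (by linarith [hx.1]) (le_max_right _ _)
    rw [Real.enorm_eq_ofReal_abs]
    apply ENNReal.ofReal_le_ofReal
    unfold Sp
    rw [abs_of_nonneg (by positivity)]
    apply mul_le_mul_of_nonneg_left _ hc
    exact pow_le_pow_left₀ (by positivity) h4 k
  exact (rect_volume_ne hm (by positivity : 0 < δ / 2)).1 (measure_mono_null h2 h1)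

/-- **Fooling bound at the tip.** -/
theorem tip_bound {D : Set (Fin 2 → ℝ)} {m e δ c : ℝ} (T : Tip D m e) (hδ : 0 < δ) (hδe : δ ≤ e)
    (hδm : m * δ ^ 2 / 2 ≤ 1) (hc : 0 ≤ c)
    {s : ℕ} {p : ℝ≥0∞} {k : ℕ} (hk : 1 ≤ k)
    (hf : (fun x => c * Sp δ k x) ∈ sobBall D s p) (n : ℕ) :
    ENNReal.ofReal (c * (δ / 2) ^ k * (1 - m * δ ^ 2 / 2) ^ n)
      ≤ minErr D s p ∞ .ran n := by
  have hm := T.hm
  have hp : IsProbabilityMeasure (unif D) :=
    unif_isProb (by rw [T.vol]; norm_num) (by rw [T.vol]; norm_num)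
  refine le_iInf fun A => ?_
  have hM := (isOpen_Tri m δ).measurableSet
  have hME := T.isOpen.measurableSet
  have hz : ∀ x ∈ D \ Tri m δ, (fun x => c * Sp δ k x) x = 0 := by
    intro x hx
    have : δ ≤ x 0 := by
      by_contra hcon
      push Not at hcon
      have h1 := T.tip x hx.1 (lt_of_lt_of_le hcon hδe)
      exact hx.2 ⟨hcon, h1.2.1, h1.2.2⟩
    simp only [Sp]
    rw [max_eq_left (by linarith), zero_pow (by omega), mul_zero]
  have h1 := fooling hME (q := ∞) le_top hf (hME.diff hM) hz inferInstance A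
  refine le_trans ?_ h1
  rw [unif_tip T hδ hδe, ENNReal.ofReal_mul (by positivity),
    ENNReal.ofReal_pow (by linarith)]
  gcongr
  exact Sp_sup T hδ hδe hc k

end Pool.Agent.H604R3.Shape
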