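import Mathlib
import Pool.Agent.Helper579.IidCone
import Pool.Agent.H604R3.ShapeFool

set_option autoImplicit false

namespace Pool.Agent.H604R3.Shape

open MeasureTheory Set Filter
open Pool.Agent.Helper579.Iid
open scoped ENNReal Topology

/-- the gradient of the spike -/
lemma spike_grad (D : Set (Fin 2 → ℝ)) (δ c : ℝ) : HasGrad D (fun x => c * Sp δ 1 x)
    (fun x => -c * Wm δ 0 x) (fun _ => 0) where
  cont := (continuous_const.mul (Sp_continuous δ 1)).continuousOn
  loc₀ := Wm_loc D (-c) δ 0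
  loc₁ := by
    have := Wm_loc D 0 δ 0
    simpa using this
  w₀ := by
    intro φ h1 h2 h3
    have e1 := full (D := D) (fun x => -c * Wm δ 0 x) (ψ := φ) h3
    have e2 := full (D := D) (fun x => c * Sp δ 1 x) (ψ := pderiv 0 φ)
      ((pderiv_tsupport 0).trans h3)
    rw [e1, e2]
    have h4 := ibp_zero δ 0 h1 h2
    have e3 : ∫ x, c * Sp δ 1 x * pderiv 0 φ x = c * ∫ x, Sp δ 1 x * pderiv 0 φ x := by
      rw [← integral_const_mul]; congr 1; funext x; ring
    have e4 : ∫ x, -c * Wm δ 0 x * φ x = -c * ∫ x, Wm δ 0 x * φ x := by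
      rw [← integral_const_mul]; congr 1; funext x; ring
    rw [e3, e4]
    rw [zero_add] at h4
    rw [h4]
    simp
  w₁ := by
    intro φ h1 h2 h3
    have e2 := full (D := D) (fun x => c * Sp δ 1 x) (ψ := pderiv 1 φ)
      ((pderiv_tsupport 1).trans h3)
    rw [e2]
    have h4 := Sp_one δ 0 h1 h2
    have e3 : ∫ x, c * Sp δ 1 x * pderiv 1 φ x = c * ∫ x, Sp δ 1 x * pderiv 1 φ x := by
      rw [← integral_const_mul]; congr 1; funext x; ring
    rw [e3]
    rw [zero_add] at h4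
    rw [h4]
    simp

/-- a spike in the unit ball -/
lemma spike_mem {D : Set (Fin 2 → ℝ)} {m e δ c : ℝ} (T : Tip D m e) (hδ : 0 < δ)
    (hδe : 2 * δ ≤ e) (hδ1 : δ ≤ 1) (hc : 0 ≤ c) (hc4 : c ^ 4 * (4 * (m * δ ^ 2)) ≤ 1) :
    (fun x => c * Sp δ 1 x) ∈ sobBall D 1 4 := by
  have hm := T.hm
  have hDm := T.isOpen.measurableSet
  have hRm := (isOpen_Tri m (2 * δ)).measurableSet
  apply mem_sobBall_one hDm (spike_grad D δ c)
  have hout : ∀ x ∈ D, x ∉ Tri m (2 * δ) → δ < x 0 := by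
    intro x hx hxR
    by_contra hcon
    push Not at hcon
    have h1 := T.tip x hx (by linarith)
    exact hxR ⟨by linarith, h1.2.1, h1.2.2⟩
  have h1 : eLpNorm (fun x => c * Sp δ 1 x) 4 (volume.restrict D) ^ 4
      ≤ ENNReal.ofReal c ^ 4 * volume (Tri m (2 * δ)) := by
    apply pow4_le_of_supp hRm hDm
    · intro x hx _
      have hx0 := T.pos x hx
      simp only [Sp, pow_one]
      have h2 : 0 ≤ max 0 (δ - x 0) := le_max_left _ _
      have h3 : max 0 (δ - x 0) ≤ 1 := max_le (by norm_num) (by linarith)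
      rw [abs_of_nonneg (mul_nonneg hc h2)]
      nlinarith
    · intro x hx hxR
      have := hout x hx hxR
      simp only [Sp, pow_one]
      rw [max_eq_left (by linarith), mul_zero]
  have h2 : eLpNorm (fun x => -c * Wm δ 0 x) 4 (volume.restrict D) ^ 4
      ≤ ENNReal.ofReal c ^ 4 * volume (Tri m (2 * δ)) := by
    apply pow4_le_of_supp hRm hDm
    · intro x hx _
      unfold Wm
      by_cases h : x ∈ {x : Fin 2 → ℝ | x 0 ≤ δ}
      · rw [Set.indicator_of_mem h, pow_zero, mul_one, abs_neg, abs_of_nonneg hc]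
      · rw [Set.indicator_of_notMem h, mul_zero, abs_zero]; exact hc
    · intro x hx hxR
      have := hout x hx hxR
      unfold Wm
      rw [Set.indicator_of_notMem (show x ∉ {x : Fin 2 → ℝ | x 0 ≤ δ} from not_le.mpr this),
        mul_zero]
  have h3 : eLpNorm (fun _ : Fin 2 → ℝ => (0 : ℝ)) 4 (volume.restrict D) = 0 :=
    eLpNorm_zero'
  rw [h3]
  have h4 : (0 : ℝ≥0∞) ^ 4 = 0 := by norm_num
  rw [h4, add_zero]
  refine (add_le_add h1 h2).trans ?_
  rw [volume_Tri hm (by positivity), ← ENNReal.ofReal_pow hc, ← ENNReal.ofReal_mul (by positivity),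
    ← ENNReal.ofReal_add (by positivity) (by positivity), ← ENNReal.ofReal_one]
  apply ENNReal.ofReal_le_ofReal
  refine le_trans (le_of_eq ?_) hc4
  ring

lemma rate_eq : rate 2 1 4 ∞ = 1 / 4 := by
  unfold rate
  simp only [ENNReal.toReal_inv, ENNReal.toReal_top, inv_zero, sub_zero]
  have h4 : (4 : ℝ≥0∞).toReal = 4 := by norm_num
  rw [h4]
  norm_num

lemma root4 {x : ℝ} (hx : 0 ≤ x) : x ^ (1 / 4 : ℝ) = Real.sqrt (Real.sqrt x) := by
  rw [Real.sqrt_eq_rpow, Real.sqrt_eq_rpow, ← Real.rpow_mul hx]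
  norm_num

lemma root4_pow {x : ℝ} (hx : 0 ≤ x) : Real.sqrt (Real.sqrt x) ^ 4 = x := by
  calc Real.sqrt (Real.sqrt x) ^ 4 = (Real.sqrt (Real.sqrt x) ^ 2) ^ 2 := by ring
    _ = x := by rw [Real.sq_sqrt (Real.sqrt_nonneg x), Real.sq_sqrt hx]

/-- **Lower bound for the sheared squares.** -/
lemma sheared_lower {s : ℝ} (hs : 1 ≤ s) {n : ℕ} (hn : 1 ≤ n) (hns : s ≤ n) :
    ENNReal.ofReal (Real.sqrt s / 16) ≤ scaled (Sq s) 1 4 ∞ .ran n := by
  have T := tip_Sq hs
  have hs0 : 0 < s := by linarith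
  have hn0 : (0 : ℝ) < n := by exact_mod_cast hn
  set r : ℝ := Real.sqrt (Real.sqrt n) with hr
  set w : ℝ := Real.sqrt s with hw
  have hw0 : 0 < w := by positivity
  have hw2 : w ^ 2 = s := Real.sq_sqrt hs0.le
  have hr0 : 0 < r := by positivity
  have hr4 : r ^ 4 = n := root4_pow hn0.le
  have hr2 : (r ^ 2) ^ 2 = n := by rw [← hr4]; ring
  set δ : ℝ := w / (2 * r ^ 2) with hδ
  have hδ0 : 0 < δ := by positivity
  have hwr : w ≤ r ^ 2 := by
    apply le_of_sq_le_sq _ (by positivity)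
    rw [hr2, hw2]; exact hns
  have hδ1 : 2 * δ ≤ 1 := by
    have : 2 * δ = w / r ^ 2 := by rw [hδ]; field_simp
    rw [this, div_le_one (by positivity)]
    exact hwr
  have hδsq : δ ^ 2 = s / (4 * n) := by
    rw [hδ, div_pow, mul_pow, hr2, hw2]; norm_num
  have hmem : (fun x => (r / 2) * Sp δ 1 x) ∈ sobBall (Sq s) 1 4 := by
    apply spike_mem T hδ0 hδ1 (by linarith) (by positivity)
    rw [hδsq, div_pow, hr4]
    have : (n : ℝ) / 2 ^ 4 * (4 * (1 / s * (s / (4 * n)))) = 1 / 16 := by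
      field_simp
      norm_num
    rw [this]
    norm_num
  have hmδ : 1 / s * δ ^ 2 / 2 = 1 / (8 * n) := by
    rw [hδsq]; field_simp; norm_num
  have hn1 : (1 : ℝ) ≤ n := by exact_mod_cast hn
  have h2 : (1 : ℝ) / (8 * n) ≤ 1 := by
    rw [div_le_one (by positivity)]
    linarith
  have hlow := tip_bound T hδ0 (by linarith) (by rw [hmδ]; exact h2) (by positivity) le_rfl hmem n
  rw [hmδ] at hlow
  unfold scaled
  rw [rate_eq, root4 hn0.le, ← hr]
  have hprob : (7 : ℝ) / 8 ≤ (1 - 1 / (8 * n)) ^ n := by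
    have h3 := one_add_mul_le_pow (a := -(1 / (8 * n) : ℝ)) (by linarith) n
    have h4 : (1 : ℝ) + n * -(1 / (8 * n)) = 7 / 8 := by field_simp; norm_num
    rw [h4, ← sub_eq_add_neg] at h3
    exact h3
  calc ENNReal.ofReal (w / 16)
      ≤ ENNReal.ofReal (r / 2 * (δ / 2) ^ 1 * (1 - 1 / (8 * n)) ^ n * r) := by
        apply ENNReal.ofReal_le_ofReal
        calc w / 16 ≤ w * (7 / 64) := by linarith
          _ = r / 2 * (δ / 2) ^ 1 * (7 / 8) * r := by
              rw [hδ]; field_simp; norm_num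
          _ ≤ r / 2 * (δ / 2) ^ 1 * (1 - 1 / (8 * n)) ^ n * r := by gcongr
    _ = ENNReal.ofReal (r / 2 * (δ / 2) ^ 1 * (1 - 1 / (8 * n)) ^ n) * ENNReal.ofReal r := by
        apply ENNReal.ofReal_mul'
        positivity
    _ ≤ _ := by gcongr

/-- the square consists of grid cells -/
lemma grid_USq {M : ℕ} (hM : 1 ≤ M) : Grid USq (2 * M) M (fun _ => 0) where
  hM := hM
  hN := rfl
  l0 := fun _ => le_rfl
  isOpen := isOpen_USq
  row := by
    intro j hj0 hjN x h1 h2 h3 h4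
    have hN : (0 : ℝ) < ((2 * M : ℕ) : ℝ) := by
      have : 0 < 2 * M := by omega
      exact_mod_cast this
    have hj0' : (0 : ℝ) ≤ j := by exact_mod_cast hj0
    have hjN' : (j : ℝ) + 1 ≤ ((2 * M : ℕ) : ℝ) := by exact_mod_cast hjN
    have h1' : 0 < x 0 * ((2 * M : ℕ) : ℝ) := by
      simpa using h1
    refine ⟨⟨?_, ?_⟩, ⟨?_, ?_⟩⟩
    · by_contra hcon
      push Not at hcon
      nlinarith
    · nlinarith
    · by_contra hcon
      push Not at hcon
      nlinarith
    · by_contra hcon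
      push Not at hcon
      nlinarith
  vol := by rw [volume_USq]; norm_num
  vol0 := by rw [volume_USq]; norm_num

/-- upper bound for the square at the grid scales -/
lemma square_upper {M : ℕ} (hM : 1 ≤ M) : minErr USq 1 4 ∞ .ran ((2 * M) ^ 2)
    ≤ ENNReal.ofReal (Cg * Real.sqrt (1 / (2 * M : ℕ))) := by
  have G := grid_USq hM
  have hN := G.Npos
  have h := upper_grid G (τ := 0) le_rfl (fun f g₀ g₁ H => ae_restrict_of_forall_mem
    isOpen_USq.measurableSet fun z hz => by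
      set i : ℤ := ⌊z 0 * ((2 * M : ℕ) : ℝ)⌋ with hi
      set j : ℤ := ⌊z 1 * ((2 * M : ℕ) : ℝ)⌋ with hj
      have hci : cellIdx (2 * M) z = (i, j) := rfl
      obtain ⟨⟨z1, z2⟩, z3, z4⟩ := hz
      have hj0 : 0 ≤ j := by rw [hj, Int.le_floor, Int.cast_zero]; positivity
      have hjN : j < ((2 * M : ℕ) : ℤ) := by
        rw [hj, Int.floor_lt, Int.cast_natCast]; nlinarith
      have hiN : i < ((2 * M : ℕ) : ℤ) := by
        rw [hi, Int.floor_lt, Int.cast_natCast]; nlinarith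
      have hi0 : 0 ≤ i := by rw [hi, Int.le_floor, Int.cast_zero]; positivity
      have hiN' : -((2 * M : ℕ) : ℤ) ≤ i := le_trans (by omega) hi0
      have hi0' : -(0 : ℤ) ≤ i := by simpa using hi0
      have hc : cidx (2 * M) (fun _ => (0 : ℤ)) z = (i, j) := by
        unfold cidx
        rw [hci]
        simp only
        rw [max_eq_left hi0']
      rw [hc]
      refine ⟨mem_cells.mpr ⟨⟨hiN', hiN⟩, ⟨hj0, hjN⟩, hi0'⟩, z, ⟨⟨z1, z2⟩, z3, z4⟩,
        closure_cbox_of_cellIdx hN hci, ?_⟩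
      rw [sub_self, abs_zero])
  rw [zero_add] at h
  exact h

/-- **Upper bound for the square.** -/
lemma square_scaled {n : ℕ} (hn : 4 ≤ n) : scaled USq 1 4 ∞ .ran n ≤ ENNReal.ofReal (2 * Cg) := by
  have hC := Cg_pos
  have hp : IsProbabilityMeasure (unif USq) :=
    unif_isProb (by rw [volume_USq]; norm_num) (by rw [volume_USq]; norm_num)
  set M := Nat.sqrt n / 2 with hM
  have hs : 2 ≤ Nat.sqrt n := by rw [Nat.le_sqrt]; omega
  have hM1 : 1 ≤ M := by omega
  have h1 : (2 * M) ^ 2 ≤ n := by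
    have h2 : 2 * M ≤ Nat.sqrt n := by omega
    have h3 := Nat.sqrt_le' n
    calc (2 * M) ^ 2 ≤ Nat.sqrt n ^ 2 := Nat.pow_le_pow_left h2 2
      _ ≤ n := h3
  have h2 : n ≤ 4 * (2 * M) ^ 2 := by
    have h3 := Nat.lt_succ_sqrt' n
    have h4 : Nat.succ (Nat.sqrt n) ≤ 4 * M := by omega
    have h5 : Nat.succ (Nat.sqrt n) ^ 2 ≤ (4 * M) ^ 2 := Nat.pow_le_pow_left h4 2
    have h6 : (4 * M) ^ 2 = 4 * (2 * M) ^ 2 := by ring
    omega
  have h3 := (minErr_antitone (D := USq) (s := 1) (p := 4) (q := ∞) hp .ran h1).trans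
    (square_upper hM1)
  set N : ℕ := 2 * M with hN
  have hN0 : (0 : ℝ) < N := by
    have : 0 < N := by omega
    exact_mod_cast this
  unfold scaled
  rw [rate_eq, root4 (by positivity)]
  have h4 : Real.sqrt (Real.sqrt n) ≤ 2 * Real.sqrt N := by
    have h5 : (n : ℝ) ≤ 4 * (N : ℝ) ^ 2 := by exact_mod_cast h2
    have h6 : Real.sqrt n ≤ 2 * N := by
      rw [Real.sqrt_le_left (by positivity)]
      nlinarith
    rw [Real.sqrt_le_left (by positivity), mul_pow, Real.sq_sqrt hN0.le]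
    linarith
  calc minErr USq 1 4 ∞ .ran n * ENNReal.ofReal (Real.sqrt (Real.sqrt n))
      ≤ ENNReal.ofReal (Cg * Real.sqrt (1 / N)) * ENNReal.ofReal (2 * Real.sqrt N) := by
        gcongr
    _ = ENNReal.ofReal (2 * Cg) := by
        rw [← ENNReal.ofReal_mul (by positivity)]
        congr 1
        have : Real.sqrt (1 / N) * Real.sqrt N = 1 := by
          rw [← Real.sqrt_mul (by positivity), one_div_mul_cancel hN0.ne', Real.sqrt_one]
        calc Cg * Real.sqrt (1 / N) * (2 * Real.sqrt N)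
            = 2 * Cg * (Real.sqrt (1 / N) * Real.sqrt N) := by ring
          _ = 2 * Cg := by rw [this, mul_one]

lemma inScope_B : InScope 2 1 4 ∞ Crit.ran := by
  unfold InScope
  refine ⟨le_rfl, by norm_num, le_top, Or.inl ?_, by norm_num⟩
  rw [ENNReal.toReal_inv]
  have h4 : (4 : ℝ≥0∞).toReal = 4 := by norm_num
  rw [h4]
  norm_num

/-- the square has a finite upper limit -/
theorem square_limsup : limsup (scaled USq 1 4 ∞ Crit.ran) atTop ≤ ENNReal.ofReal (2 * Cg) := by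
  refine limsup_le_of_le (by isBoundedDefault) ?_
  rw [eventually_atTop]
  exact ⟨4, fun n hn => square_scaled hn⟩

/-- the sheared squares have large lower limits -/
theorem sheared_liminf {s : ℝ} (hs : 1 ≤ s) :
    ENNReal.ofReal (Real.sqrt s / 16) ≤ liminf (scaled (Sq s) 1 4 ∞ Crit.ran) atTop := by
  refine le_liminf_of_le (by isBoundedDefault) ?_
  rw [eventually_atTop]
  refine ⟨max 1 ⌈s⌉₊, fun n hn => sheared_lower hs (le_trans (le_max_left _ _) hn) ?_⟩
  exact le_trans (Nat.le_ceil _) (by exact_mod_cast le_trans (le_max_right _ _) hn)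

end Pool.Agent.H604R3.Shape
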